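import Pool.Agent.helper3.XT.Spec

set_option autoImplicit false

namespace Pool.Agent.XT

open Finset SimpleGraph

theorem AVZ_count {V : Type} [Fintype V] [DecidableEq V] (A F : Finset V) (k : ℕ) (h1 : Disjoint A F)
    (h2 : A.card + F.card ≤ k) :
    2 ^ Fintype.card V ≤ 2 ^ k * ((univ : Finset (Finset V)).filter (fun Z => A ⊆ Z ∧ Disjoint F Z)).card := by
  have h3 : (univ \ (A ∪ F)).powerset.card ≤
      ((univ : Finset (Finset V)).filter (fun Z => A ⊆ Z ∧ Disjoint F Z)).card := by
    apply Finset.card_le_card_of_injOn (fun Z' => A ∪ Z')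
    · intro Z' hZ'
      have hZ'' : Z' ⊆ univ \ (A ∪ F) := Finset.mem_powerset.1 hZ'
      simp only [Finset.coe_filter, Finset.mem_univ, true_and, Set.mem_setOf_eq]
      refine ⟨Finset.subset_union_left, ?_⟩
      rw [Finset.disjoint_union_right]
      refine ⟨h1.symm, ?_⟩
      rw [Finset.disjoint_left]
      intro v hv hv'
      have := Finset.mem_sdiff.1 (hZ'' hv')
      exact this.2 (Finset.mem_union_right _ hv)
    · intro X hX Y hY hXY
      have hX' : X ⊆ univ \ (A ∪ F) := Finset.mem_powerset.1 hX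
      have hY' : Y ⊆ univ \ (A ∪ F) := Finset.mem_powerset.1 hY
      have hXY' : A ∪ X = A ∪ Y := hXY
      ext v
      constructor
      · intro hv
        have h4 : v ∈ A ∪ Y := by rw [← hXY']; exact Finset.mem_union_right _ hv
        rcases Finset.mem_union.1 h4 with h5 | h5
        · exact absurd (Finset.mem_union_left _ h5) (Finset.mem_sdiff.1 (hX' hv)).2
        · exact h5
      · intro hv
        have h4 : v ∈ A ∪ X := by rw [hXY']; exact Finset.mem_union_right _ hv
        rcases Finset.mem_union.1 h4 with h5 | h5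
        · exact absurd (Finset.mem_union_left _ h5) (Finset.mem_sdiff.1 (hY' hv)).2
        · exact h5
  rw [Finset.card_powerset] at h3
  have h4 : (univ \ (A ∪ F)).card + (A.card + F.card) = Fintype.card V := by
    rw [← Finset.card_union_of_disjoint h1, Finset.card_sdiff_add_card_eq_card (Finset.subset_univ _), Finset.card_univ]
  calc 2 ^ Fintype.card V = 2 ^ (A.card + F.card) * 2 ^ (univ \ (A ∪ F)).card := by
        rw [← h4, pow_add, mul_comm]
    _ ≤ 2 ^ k * 2 ^ (univ \ (A ∪ F)).card :=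
        Nat.mul_le_mul_right _ (Nat.pow_le_pow_right (by norm_num) h2)
    _ ≤ _ := Nat.mul_le_mul_left _ h3

theorem AVZ : AVZ_stmt := by
  intro ι V _ _ I A F k h1 h2
  by_contra hcon
  push Not at hcon
  have h3 : ∑ Z : Finset V, 2 ^ k * (I.filter (fun i => A i ⊆ Z ∧ Disjoint (F i) Z)).card <
      ∑ _Z : Finset V, I.card :=
    Finset.sum_lt_sum_of_nonempty ⟨∅, Finset.mem_univ _⟩ fun Z _ => hcon Z
  rw [← Finset.mul_sum, Finset.sum_const, Finset.card_univ, Fintype.card_finset, smul_eq_mul] at h3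
  have h4 : ∑ Z : Finset V, (I.filter (fun i => A i ⊆ Z ∧ Disjoint (F i) Z)).card =
      ∑ i ∈ I, ((univ : Finset (Finset V)).filter (fun Z => A i ⊆ Z ∧ Disjoint (F i) Z)).card := by
    simp only [Finset.card_filter]
    exact Finset.sum_comm
  rw [h4, Finset.mul_sum] at h3
  have h5 : ∑ _i ∈ I, 2 ^ Fintype.card V ≤
      ∑ i ∈ I, 2 ^ k * ((univ : Finset (Finset V)).filter (fun Z => A i ⊆ Z ∧ Disjoint (F i) Z)).card :=
    Finset.sum_le_sum fun i hi => AVZ_count (A i) (F i) k (h1 i hi) (h2 i hi)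
  rw [Finset.sum_const, smul_eq_mul] at h5
  rw [mul_comm] at h5
  omega

end Pool.Agent.XT
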